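import Mathlib

set_option autoImplicit false

/-!
# The union of two `k`-critical graphs is `(k - 1) ^ 2`-colourable for `k ≥ 4`

In particular `f 4 4 ≤ 9`, so `f 4 4 ≠ 10`.

Write `m = k - 1` and let `A`, `B` be the two graphs.  Suppose that `A ∪ B` has no colouring
with `m ^ 2` colours.  For an edge `e` of `A` there is a colouring of `A - e` with `m` colours;
its two ends get the same colour.  The file shows that the colour classes of such colourings
interact very rigidly, and then adds a colouring of `A - e` and a colouring of `B - e'`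
modulo `m` (and a second such pair), after a permutation of the colours, to get a colouring of
the union by pairs.
-/

namespace Pool.Agent.Results.MP_b82347_co.TwoFourCritical

open SimpleGraph

/-- A graph with vertex set inside `U` (given as a subgraph of the complete graph on `U`) is
`k`-critical if its chromatic number is `k` and every proper subgraph has smaller chromatic
number. -/
def IsCritical {U : Type} (A : (⊤ : SimpleGraph U).Subgraph) (k : ℕ) : Prop :=
  A.coe.chromaticNumber = (k : ℕ∞) ∧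
    ∀ B : (⊤ : SimpleGraph U).Subgraph, B < A → B.coe.chromaticNumber < (k : ℕ∞)

/-- `f k l` is the supremum of the chromatic number of the union of a `k`-critical graph and
an `l`-critical graph, whose finite vertex sets may overlap arbitrarily. -/
noncomputable def f (k l : ℕ) : ℕ∞ :=
  ⨆ (n : ℕ) (A : (⊤ : SimpleGraph (Fin n)).Subgraph) (B : (⊤ : SimpleGraph (Fin n)).Subgraph)
    (_ : IsCritical A k) (_ : IsCritical B l), (A ⊔ B).coe.chromaticNumber

section core

variable {V Z : Type}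

/-- `φ` is a proper colouring of `A` minus the edge `xy`. -/
def Col (A : SimpleGraph V) (x y : V) (φ : V → Z) : Prop :=
  ∀ u v, A.Adj u v → s(u, v) ≠ s(x, y) → φ u ≠ φ v

/-- `A` has no colouring by the elements of `Z`, but it has one after deleting any edge. -/
structure Crit (Z : Type) (A : SimpleGraph V) : Prop where
  not_col : ∀ φ : V → Z, ∃ u v, A.Adj u v ∧ φ u = φ v
  col : ∀ x y, A.Adj x y → ∃ φ : V → Z, Col A x y φ

/-- The union of `A` and `B` has no colouring by pairs of elements of `Z`. -/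
def Bad (Z : Type) (A B : SimpleGraph V) : Prop :=
  ∀ c : V → Z × Z, ∃ u v, (A.Adj u v ∨ B.Adj u v) ∧ c u = c v

theorem Bad.swap {A B : SimpleGraph V} (h : Bad Z A B) : Bad Z B A := by
  intro c
  obtain ⟨u, v, huv, hc⟩ := h c
  exact ⟨u, v, huv.symm, hc⟩

theorem Crit.ends {A : SimpleGraph V} (hA : Crit Z A) {x y : V} {φ : V → Z} (h : Col A x y φ) :
    φ x = φ y := by
  obtain ⟨u, v, huv, heq⟩ := hA.not_col φ
  by_cases h1 : s(u, v) = s(x, y)
  · rw [Sym2.eq_iff] at h1
    rcases h1 with ⟨h2, h3⟩ | ⟨h2, h3⟩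
    · rw [← h2, ← h3]; exact heq
    · rw [← h2, ← h3]; exact heq.symm
  · exact absurd heq (h u v huv h1)

theorem lemC [Fintype Z] [DecidableEq Z] (hZ : 3 ≤ Fintype.card Z) {A B : SimpleGraph V}
    (hA : Crit Z A) (hbad : Bad Z A B) {z w : V} {φ₂ : V → Z} (h2 : Col B z w φ₂) (s : Z) :
    ∃ p q, A.Adj p q ∧ ¬ (φ₂ p = s ∧ φ₂ q = s) := by
  classical
  by_contra hcon
  push Not at hcon
  obtain ⟨x, y, hxy, _⟩ := hA.not_col φ₂
  obtain ⟨φ₁, h1⟩ := hA.col x y hxy
  have hcard : Fintype.card (Option (Option (Z ⊕ Z))) ≤ Fintype.card (Z × Z) := by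
    rw [Fintype.card_option, Fintype.card_option, Fintype.card_sum, Fintype.card_prod]
    nlinarith
  obtain ⟨ι⟩ := Function.Embedding.nonempty_of_card_le hcard
  let c0 : V → Option (Option (Z ⊕ Z)) := fun v =>
    if v = x then none else if v = z then some none else
      some (some (if φ₂ v = s then Sum.inl (φ₁ v) else Sum.inr (φ₂ v)))
  obtain ⟨u, v, huv, hc⟩ := hbad (fun v => ι (c0 v))
  have hc0 : c0 u = c0 v := ι.injective hc
  have hne : u ≠ v := by
    rcases huv with h | h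
    · exact h.ne
    · exact h.ne
  by_cases hux : u = x
  · have hvx : v ≠ x := fun h => hne (hux.trans h.symm)
    simp only [c0, if_pos hux, if_neg hvx] at hc0
    split_ifs at hc0
  · by_cases hvx : v = x
    · simp only [c0, if_pos hvx, if_neg hux] at hc0
      split_ifs at hc0
    · by_cases huz : u = z
      · have hvz : v ≠ z := fun h => hne (huz.trans h.symm)
        simp only [c0, if_neg hux, if_neg hvx, if_pos huz, if_neg hvz] at hc0
        simp at hc0
      · by_cases hvz : v = z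
        · simp only [c0, if_neg hux, if_neg hvx, if_neg huz, if_pos hvz] at hc0
          simp at hc0
        · simp only [c0, if_neg hux, if_neg hvx, if_neg huz, if_neg hvz, Option.some.injEq] at hc0
          rcases huv with h | h
          · obtain ⟨h3, h4⟩ := hcon u v h
            rw [if_pos h3, if_pos h4, Sum.inl.injEq] at hc0
            refine h1 u v h ?_ hc0
            intro h5
            rw [Sym2.eq_iff] at h5
            rcases h5 with ⟨h6, _⟩ | ⟨_, h6⟩
            · exact hux h6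
            · exact hvx h6
          · have h3 : φ₂ u ≠ φ₂ v := by
              apply h2 u v h
              intro h5
              rw [Sym2.eq_iff] at h5
              rcases h5 with ⟨h6, _⟩ | ⟨_, h6⟩
              · exact huz h6
              · exact hvz h6
            by_cases h4 : φ₂ u = s
            · by_cases h5 : φ₂ v = s
              · exact h3 (h4.trans h5.symm)
              · rw [if_pos h4, if_neg h5] at hc0
                simp at hc0
            · by_cases h5 : φ₂ v = s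
              · rw [if_neg h4, if_pos h5] at hc0
                simp at hc0
              · rw [if_neg h4, if_neg h5, Sum.inr.injEq] at hc0
                exact h3 hc0

theorem lemC' [Fintype Z] [DecidableEq Z] (hZ : 3 ≤ Fintype.card Z) {A B : SimpleGraph V}
    (hA : Crit Z A) (hbad : Bad Z A B) {z w : V} {φ₂ : V → Z} (h2 : Col B z w φ₂) (s : Z) :
    ∃ ψ : V → Z, ∀ p q, A.Adj p q → φ₂ p = s → φ₂ q = s → ψ p ≠ ψ q := by
  obtain ⟨p, q, hpq, hs⟩ := lemC hZ hA hbad h2 s
  obtain ⟨ψ, hψ⟩ := hA.col p q hpq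
  refine ⟨ψ, ?_⟩
  intro u v huv hu hv
  apply hψ u v huv
  intro h
  apply hs
  rw [Sym2.eq_iff] at h
  rcases h with ⟨h1, h2⟩ | ⟨h1, h2⟩
  · rw [← h1, ← h2]; exact ⟨hu, hv⟩
  · rw [← h1, ← h2]; exact ⟨hv, hu⟩

theorem lemA [Fintype Z] [DecidableEq Z] (hZ : 3 ≤ Fintype.card Z) {A B : SimpleGraph V}
    (hA : Crit Z A) (hB : Crit Z B) (hbad : Bad Z A B) {x y z w : V} {φ₁ φ₂ : V → Z}
    (h1 : Col A x y φ₁) (h2 : Col B z w φ₂) (hne : φ₁ z ≠ φ₁ w) :
    φ₂ x = φ₂ z ∧ φ₂ y = φ₂ z := by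
  classical
  have hxy : φ₂ x = φ₂ y := by
    by_contra hcon
    obtain ⟨u, v, huv, hc⟩ := hbad (fun v => (φ₁ v, φ₂ v))
    have hc1 : φ₁ u = φ₁ v := congrArg Prod.fst hc
    have hc2 : φ₂ u = φ₂ v := congrArg Prod.snd hc
    rcases huv with huv | huv
    · by_cases h3 : s(u, v) = s(x, y)
      · rw [Sym2.eq_iff] at h3
        rcases h3 with ⟨h4, h5⟩ | ⟨h4, h5⟩
        · rw [h4, h5] at hc2; exact hcon hc2
        · rw [h4, h5] at hc2; exact hcon hc2.symm
      · exact h1 u v huv h3 hc1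
    · by_cases h3 : s(u, v) = s(z, w)
      · rw [Sym2.eq_iff] at h3
        rcases h3 with ⟨h4, h5⟩ | ⟨h4, h5⟩
        · rw [h4, h5] at hc1; exact hne hc1
        · rw [h4, h5] at hc1; exact hne hc1.symm
      · exact h2 u v huv h3 hc2
  have hzw : φ₂ z = φ₂ w := hB.ends h2
  by_cases hst : φ₂ x = φ₂ z
  · exact ⟨hst, hxy.symm.trans hst⟩
  exfalso
  have hψ := fun s => lemC' hZ hA hbad h2 s
  choose ψ hψ using hψ
  obtain ⟨u, v, huv, hc⟩ := hbad (fun v => (φ₂ v, if φ₂ v = φ₂ z then φ₁ v else ψ (φ₂ v) v))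
  have hc1 : φ₂ u = φ₂ v := congrArg Prod.fst hc
  have hc2 : (if φ₂ u = φ₂ z then φ₁ u else ψ (φ₂ u) u) =
    (if φ₂ v = φ₂ z then φ₁ v else ψ (φ₂ v) v) := congrArg Prod.snd hc
  rw [← hc1] at hc2
  by_cases hz : φ₂ u = φ₂ z
  · rw [if_pos hz, if_pos hz] at hc2
    rcases huv with huv | huv
    · refine h1 u v huv ?_ hc2
      intro h3
      rw [Sym2.eq_iff] at h3
      rcases h3 with ⟨h4, h5⟩ | ⟨h4, h5⟩
      · rw [h4] at hz; exact hst hz
      · rw [h4] at hz; exact hst (hxy.trans hz)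
    · by_cases h3 : s(u, v) = s(z, w)
      · rw [Sym2.eq_iff] at h3
        rcases h3 with ⟨h4, h5⟩ | ⟨h4, h5⟩
        · rw [h4, h5] at hc2; exact hne hc2
        · rw [h4, h5] at hc2; exact hne hc2.symm
      · exact h2 u v huv h3 hc1
  · rw [if_neg hz, if_neg hz] at hc2
    rcases huv with huv | huv
    · exact hψ (φ₂ u) u v huv rfl hc1.symm hc2
    · refine h2 u v huv ?_ hc1
      intro h3
      rw [Sym2.eq_iff] at h3
      rcases h3 with ⟨h4, h5⟩ | ⟨h4, h5⟩
      · exact hz (by rw [h4])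
      · exact hz (by rw [h4, hzw])

/-- Every vertex of `B` is a vertex of `A`. -/
theorem vert [Fintype Z] [DecidableEq Z] (hZ : 3 ≤ Fintype.card Z) {A B : SimpleGraph V}
    (hA : Crit Z A) (hB : Crit Z B) (hbad : Bad Z A B) {z w : V} (hzw : B.Adj z w) :
    ∃ y, A.Adj z y := by
  classical
  by_contra hcon
  push Not at hcon
  obtain ⟨φ₂, h2⟩ := hB.col z w hzw
  obtain ⟨p, q, hpq, hn⟩ := lemC hZ hA hbad h2 (φ₂ z)
  obtain ⟨φ₁, h1⟩ := hA.col p q hpq
  have : Nontrivial Z := Fintype.one_lt_card_iff_nontrivial.1 (by omega)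
  obtain ⟨a, ha⟩ := exists_ne (φ₁ w)
  have h1' : Col A p q (Function.update φ₁ z a) := by
    intro u v huv hne
    have hu : u ≠ z := by
      intro h
      rw [h] at huv
      exact hcon v huv
    have hv : v ≠ z := by
      intro h
      rw [h] at huv
      exact hcon u huv.symm
    rw [Function.update_of_ne hu, Function.update_of_ne hv]
    exact h1 u v huv hne
  have h3 : Function.update φ₁ z a z ≠ Function.update φ₁ z a w := by
    rw [Function.update_self, Function.update_of_ne hzw.ne.symm]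
    exact ha
  exact hn (lemA hZ hA hB hbad h1' h2 h3)

/-- The two graphs have no common edge. -/
theorem disj [Fintype Z] [DecidableEq Z] (hZ : 3 ≤ Fintype.card Z) {A B : SimpleGraph V}
    (hA : Crit Z A) (hB : Crit Z B) (hbad : Bad Z A B) {p q : V} (h1 : A.Adj p q)
    (h2 : B.Adj p q) : False := by
  obtain ⟨φ₁, hφ₁⟩ := hA.col p q h1
  obtain ⟨z, w, hzw, hn⟩ := lemC hZ hB hbad.swap hφ₁ (φ₁ p)
  obtain ⟨φ₂, hφ₂⟩ := hB.col z w hzw
  apply hn
  have hpq := hA.ends hφ₁
  by_cases h3 : s(p, q) = s(z, w)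
  · rw [Sym2.eq_iff] at h3
    rcases h3 with ⟨h4, h5⟩ | ⟨h4, h5⟩
    · rw [← h4, ← h5]; exact ⟨rfl, hpq.symm⟩
    · rw [← h4, ← h5]; exact ⟨hpq.symm, rfl⟩
  · exact lemA hZ hB hA hbad.swap hφ₂ hφ₁ (hφ₂ p q h2 h3)

theorem exists_perm {Z : Type} [AddCommGroup Z] [Fintype Z] [DecidableEq Z]
    (hZ : 3 ≤ Fintype.card Z) {u v : Z} (huv : u ≠ v) (d : Z) :
    ∃ σ : Equiv.Perm Z, σ u + d ≠ σ v := by
  by_cases h : u + d = v
  · obtain ⟨w, hw⟩ : ∃ w, w ∉ ({u, v} : Finset Z) := by
      by_contra hcon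
      push Not at hcon
      have h1 : (Finset.univ : Finset Z) ⊆ {u, v} := fun w _ => hcon w
      have h2 := Finset.card_le_card h1
      have h3 : ({u, v} : Finset Z).card ≤ 2 := Finset.card_le_two
      rw [Finset.card_univ] at h2
      omega
    rw [Finset.mem_insert, Finset.mem_singleton, not_or] at hw
    refine ⟨Equiv.swap v w, ?_⟩
    rw [Equiv.swap_apply_of_ne_of_ne huv (Ne.symm hw.1), Equiv.swap_apply_left, h]
    exact Ne.symm hw.2
  · exact ⟨1, h⟩

theorem col_perm {A : SimpleGraph V} {x y : V} {φ : V → Z} (h : Col A x y φ)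
    (σ : Equiv.Perm Z) : Col A x y (fun v => σ (φ v)) := by
  intro u v huv hne heq
  exact h u v huv hne (σ.injective heq)

/-- The final configuration. -/
theorem final [AddCommGroup Z] [Fintype Z] [DecidableEq Z] (hZ : 3 ≤ Fintype.card Z)
    {A B : SimpleGraph V} (hA : Crit Z A) (hB : Crit Z B) (hbad : Bad Z A B) {x y x' : V}
    {φ₁ : V → Z} (hxy : A.Adj x y) (hxx : B.Adj x x') (h1 : Col A x y φ₁)
    (hne : φ₁ x ≠ φ₁ x') : False := by
  classical
  have : Nontrivial Z := Fintype.one_lt_card_iff_nontrivial.1 (by omega)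
  obtain ⟨φ₂, h2⟩ := hB.col x x' hxx
  have hx' : φ₂ x = φ₂ x' := hB.ends h2
  have hy : φ₂ y = φ₂ x := (lemA hZ hA hB hbad h1 h2 hne).2
  -- a neighbour of `x'` in the same class
  obtain ⟨y', hy'adj, hy'⟩ : ∃ y', A.Adj x' y' ∧ φ₂ y' = φ₂ x := by
    by_contra hcon
    push Not at hcon
    have hψ := fun s => lemC' hZ hA hbad h2 s
    choose ψ hψ using hψ
    obtain ⟨a, ha⟩ := exists_ne (ψ (φ₂ x) x)
    obtain ⟨u, v, huv, hc⟩ := hbad (fun v => (φ₂ v, if v = x' then a else ψ (φ₂ v) v))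
    have hc1 : φ₂ u = φ₂ v := congrArg Prod.fst hc
    have hc2 : (if u = x' then a else ψ (φ₂ u) u) =
      (if v = x' then a else ψ (φ₂ v) v) := congrArg Prod.snd hc
    rcases huv with huv | huv
    · by_cases hu : u = x'
      · rw [hu] at huv hc1
        exact hcon v huv (hc1.symm.trans hx'.symm)
      · by_cases hv : v = x'
        · rw [hv] at huv hc1
          exact hcon u huv.symm (hc1.trans hx'.symm)
        · rw [if_neg hu, if_neg hv, ← hc1] at hc2
          exact hψ (φ₂ u) u v huv rfl hc1.symm hc2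
    · by_cases h3 : s(u, v) = s(x, x')
      · rw [Sym2.eq_iff] at h3
        have hxne : x ≠ x' := hxx.ne
        rcases h3 with ⟨h4, h5⟩ | ⟨h4, h5⟩
        · rw [h4, h5, if_neg hxne, if_pos rfl] at hc2
          exact ha hc2.symm
        · rw [h4, h5, if_neg hxne, if_pos rfl] at hc2
          exact ha hc2
      · exact h2 u v huv h3 hc1
  obtain ⟨w', hw'⟩ := vert hZ hB hA hbad.swap hxy.symm
  obtain ⟨φ₁', h1'⟩ := hA.col x' y' hy'adj
  obtain ⟨φ₂', h2'⟩ := hB.col y w' hw'
  -- the vertices are distinct enough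
  have hxx'ne : x ≠ x' := hxx.ne
  have hxyne : x ≠ y := hxy.ne
  have hx'y : x' ≠ y := by
    intro h
    rw [← h] at hxy
    exact disj hZ hA hB hbad hxy hxx
  have hxy' : x ≠ y' := by
    intro h
    rw [← h] at hy'adj
    exact disj hZ hA hB hbad hy'adj hxx.symm
  have e1 : s(x, y) ≠ s(x', y') := by
    intro h
    rw [Sym2.eq_iff] at h
    rcases h with ⟨h3, _⟩ | ⟨h3, _⟩
    · exact hxx'ne h3
    · exact hxy' h3
  have e2 : s(y, w') ≠ s(x, x') := by
    intro h
    rw [Sym2.eq_iff] at h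
    rcases h with ⟨h3, _⟩ | ⟨h3, _⟩
    · exact hxyne h3.symm
    · exact hx'y h3.symm
  -- choose the permutations
  obtain ⟨σ, hσ⟩ : ∃ σ : Equiv.Perm Z, σ (φ₁ y) + φ₂ y ≠ σ (φ₁ w') + φ₂ w' := by
    by_cases h3 : φ₁ y = φ₁ w'
    · refine ⟨1, ?_⟩
      rw [h3]
      intro h4
      exact h2 y w' hw' e2 (add_left_cancel h4)
    · obtain ⟨σ, hσ⟩ := exists_perm hZ h3 (φ₂ y - φ₂ w')
      refine ⟨σ, ?_⟩
      intro h4
      apply hσ
      rw [← add_sub_assoc, h4, add_sub_cancel_right]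
  obtain ⟨τ, hτ⟩ : ∃ τ : Equiv.Perm Z, τ (φ₁' x) + φ₂' x ≠ τ (φ₁' y) + φ₂' y := by
    obtain ⟨τ, hτ⟩ := exists_perm hZ (h1' x y hxy e1) (φ₂' x - φ₂' y)
    refine ⟨τ, ?_⟩
    intro h4
    apply hτ
    rw [← add_sub_assoc, h4, add_sub_cancel_right]
  obtain ⟨p, q, hpq, hc⟩ := hbad (fun v => (σ (φ₁ v) + φ₂ v, τ (φ₁' v) + φ₂' v))
  have hc1 : σ (φ₁ p) + φ₂ p = σ (φ₁ q) + φ₂ q := congrArg Prod.fst hc
  have hc2 : τ (φ₁' p) + φ₂' p = τ (φ₁' q) + φ₂' q := congrArg Prod.snd hc
  rcases hpq with hpq | hpq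
  · by_cases h3 : s(p, q) = s(x, y)
    · rw [Sym2.eq_iff] at h3
      rcases h3 with ⟨h4, h5⟩ | ⟨h4, h5⟩
      · rw [h4, h5] at hc2; exact hτ hc2
      · rw [h4, h5] at hc2; exact hτ hc2.symm
    · have h4 : φ₁ p ≠ φ₁ q := h1 p q hpq h3
      have h5 : φ₂ p ≠ φ₂ q := by
        intro h
        rw [h] at hc1
        exact h4 (σ.injective (add_right_cancel hc1))
      by_cases h6 : s(p, q) = s(x', y')
      · rw [Sym2.eq_iff] at h6
        rcases h6 with ⟨h7, h8⟩ | ⟨h7, h8⟩
        · rw [h7, h8] at h5; exact h5 (hx'.symm.trans hy'.symm)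
        · rw [h7, h8] at h5; exact h5 (hy'.trans hx')
      · have h7 : φ₁' p ≠ φ₁' q := h1' p q hpq h6
        have h8 : φ₂' p ≠ φ₂' q := by
          intro h
          rw [h] at hc2
          exact h7 (τ.injective (add_right_cancel hc2))
        obtain ⟨ψ, hψ⟩ := hA.col p q hpq
        have h9 := lemA hZ hB hA hbad.swap h2 hψ h5
        have h10 := lemA hZ hB hA hbad.swap h2' hψ h8
        exact hψ x y hxy (Ne.symm h3) (h9.1.trans h10.1.symm)
  · by_cases h3 : s(p, q) = s(y, w')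
    · rw [Sym2.eq_iff] at h3
      rcases h3 with ⟨h4, h5⟩ | ⟨h4, h5⟩
      · rw [h4, h5] at hc1; exact hσ hc1
      · rw [h4, h5] at hc1; exact hσ hc1.symm
    · by_cases h6 : s(p, q) = s(x, x')
      · rw [Sym2.eq_iff] at h6
        rcases h6 with ⟨h7, h8⟩ | ⟨h7, h8⟩
        · rw [h7, h8, hx'] at hc1
          exact hne (σ.injective (add_right_cancel hc1))
        · rw [h7, h8, hx'] at hc1
          exact hne (σ.injective (add_right_cancel hc1)).symm
      · have h4 : φ₂ p ≠ φ₂ q := h2 p q hpq h6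
        have h5 : φ₁ p ≠ φ₁ q := by
          intro h
          rw [h] at hc1
          exact h4 (add_left_cancel hc1)
        have h7 : φ₂' p ≠ φ₂' q := h2' p q hpq h3
        have h8 : φ₁' p ≠ φ₁' q := by
          intro h
          rw [h] at hc2
          exact h7 (add_left_cancel hc2)
        obtain ⟨ψ, hψ⟩ := hB.col p q hpq
        have h9 := lemA hZ hA hB hbad h1 hψ h5
        have h10 := lemA hZ hA hB hbad h1' hψ h8
        exact hψ x x' hxx (Ne.symm h6) (h9.1.trans h10.1.symm)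

/-- Two graphs that are critical for `m ≥ 3` colours have a union that is
`m ^ 2`-colourable. -/
theorem not_bad [AddCommGroup Z] [Fintype Z] [DecidableEq Z] (hZ : 3 ≤ Fintype.card Z)
    {A B : SimpleGraph V} (hA : Crit Z A) (hB : Crit Z B) : ¬ Bad Z A B := by
  classical
  intro hbad
  have : Nontrivial Z := Fintype.one_lt_card_iff_nontrivial.1 (by omega)
  obtain ⟨x, y, hxy, _⟩ := hA.not_col (fun _ => 0)
  obtain ⟨w, hxw⟩ := vert hZ hB hA hbad.swap hxy
  obtain ⟨φ₁, h1⟩ := hA.col x y hxy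
  obtain ⟨φ₂, h2⟩ := hB.col x w hxw
  obtain ⟨a, ha⟩ := exists_ne (φ₁ x)
  obtain ⟨b, hb⟩ := exists_ne (φ₂ x)
  have hcA : ∀ x', B.Adj x x' → φ₁ x = φ₁ x' := by
    intro x' hx'
    by_contra hne
    exact final hZ hA hB hbad hxy hx' h1 hne
  have hcB : ∀ x', A.Adj x x' → φ₂ x = φ₂ x' := by
    intro x' hx'
    by_contra hne
    exact final hZ hB hA hbad.swap hxw hx' h2 hne
  obtain ⟨u, v, huv, hc⟩ := hbad (fun v => if v = x then (a, b) else (φ₁ v, φ₂ v))
  by_cases hu : u = x
  · have hv : v ≠ x := by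
      intro h
      rcases huv with huv | huv
      · exact huv.ne (hu.trans h.symm)
      · exact huv.ne (hu.trans h.symm)
    simp only [if_pos hu, if_neg hv, Prod.mk.injEq] at hc
    rcases huv with huv | huv
    · rw [hu] at huv
      exact hb (hc.2.trans (hcB v huv).symm)
    · rw [hu] at huv
      exact ha (hc.1.trans (hcA v huv).symm)
  · by_cases hv : v = x
    · simp only [if_pos hv, if_neg hu, Prod.mk.injEq] at hc
      rcases huv with huv | huv
      · rw [hv] at huv
        exact hb (hc.2.symm.trans (hcB u huv.symm).symm)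
      · rw [hv] at huv
        exact ha (hc.1.symm.trans (hcA u huv.symm).symm)
    · simp only [if_neg hu, if_neg hv, Prod.mk.injEq] at hc
      rcases huv with huv | huv
      · refine h1 u v huv ?_ hc.1
        intro h3
        rw [Sym2.eq_iff] at h3
        rcases h3 with ⟨h4, _⟩ | ⟨_, h4⟩
        · exact hu h4
        · exact hv h4
      · refine h2 u v huv ?_ hc.2
        intro h3
        rw [Sym2.eq_iff] at h3
        rcases h3 with ⟨h4, _⟩ | ⟨_, h4⟩
        · exact hu h4
        · exact hv h4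

end core

section transfer

variable {U : Type}

theorem exists_fun_of_colorable (C : (⊤ : SimpleGraph U).Subgraph) {q : ℕ}
    (h : C.coe.Colorable (q + 1)) :
    ∃ c : U → Fin (q + 1), ∀ a b, C.Adj a b → c a ≠ c b := by
  classical
  obtain ⟨c⟩ := h
  refine ⟨fun w => if hw : w ∈ C.verts then c ⟨w, hw⟩ else 0, ?_⟩
  intro u v huv
  have hu := huv.fst_mem
  have hv := huv.snd_mem
  simp only [dif_pos hu, dif_pos hv]
  exact c.valid (show C.coe.Adj ⟨u, hu⟩ ⟨v, hv⟩ from huv)

theorem colorable_of_lt {V : Type*} {G : SimpleGraph V} {q : ℕ}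
    (h : G.chromaticNumber < ((q + 1 : ℕ) : ℕ∞)) : G.Colorable q := by
  rw [← chromaticNumber_le_iff_colorable]
  have h1 : ((q + 1 : ℕ) : ℕ∞) = ((q : ℕ) : ℕ∞) + 1 := by push_cast; rfl
  rw [h1] at h
  exact ENat.lt_add_one_iff (ENat.natCast_ne_top _) |>.1 h

theorem crit_of_isCritical (A : (⊤ : SimpleGraph U).Subgraph) (q : ℕ)
    (hA : IsCritical A (q + 1 + 1)) : Crit (Fin (q + 1)) A.spanningCoe := by
  refine ⟨?_, ?_⟩
  · intro φ
    by_contra hcon
    push Not at hcon
    have h : A.coe.Colorable (q + 1) := by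
      refine ⟨Coloring.mk (fun v => φ v.1) ?_⟩
      intro a b hab
      exact hcon a.1 b.1 hab
    have h1 := h.chromaticNumber_le
    rw [hA.1] at h1
    have h2 : q + 1 + 1 ≤ q + 1 := by exact_mod_cast h1
    omega
  · intro x y hxy
    have hlt : A.deleteEdges {s(x, y)} < A := by
      refine lt_of_le_of_ne (Subgraph.deleteEdges_le _) ?_
      intro h
      have h1 : (A.deleteEdges {s(x, y)}).Adj x y := by rw [h]; exact hxy
      rw [Subgraph.deleteEdges_adj] at h1
      exact h1.2 rfl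
    obtain ⟨φ, hφ⟩ := exists_fun_of_colorable _ (colorable_of_lt (hA.2 _ hlt))
    refine ⟨φ, ?_⟩
    intro u v huv hne
    apply hφ
    rw [Subgraph.deleteEdges_adj]
    exact ⟨huv, hne⟩

theorem union_colorable (k : ℕ) (hk : 4 ≤ k) (A B : (⊤ : SimpleGraph U).Subgraph)
    (hA : IsCritical A k) (hB : IsCritical B k) : (A ⊔ B).coe.Colorable ((k - 1) ^ 2) := by
  obtain ⟨q, rfl⟩ : ∃ q, k = q + 1 + 1 := ⟨k - 2, by omega⟩
  have h := not_bad (Z := Fin (q + 1)) (by rw [Fintype.card_fin]; omega)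
    (crit_of_isCritical A q hA) (crit_of_isCritical B q hB)
  unfold Bad at h
  push Not at h
  obtain ⟨c, hc⟩ := h
  have h1 : (A ⊔ B).coe.Colorable (Fintype.card (Fin (q + 1) × Fin (q + 1))) := by
    refine (Coloring.mk (fun v => c v.1) ?_).colorable
    intro a b hab
    have hab' : (A ⊔ B).Adj a.1 b.1 := hab
    rw [Subgraph.sup_adj] at hab'
    exact hc a.1 b.1 hab'
  rw [Fintype.card_prod, Fintype.card_fin] at h1
  have h2 : (q + 1 + 1 - 1) ^ 2 = (q + 1) * (q + 1) := by
    rw [Nat.add_sub_cancel, pow_two]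
  rw [h2]
  exact h1

end transfer

/-- For every `k ≥ 4`, the union of any two `k`-critical graphs (on any vertex sets) is
`(k - 1) ^ 2`-colourable, so `f k k ≤ (k - 1) ^ 2`.  In particular the union of any two
`4`-critical graphs is `9`-colourable, `f 4 4 ≤ 9` and `f 4 4 ≠ 10`. -/
theorem result :
    (∀ k : ℕ, 4 ≤ k → ∀ (U : Type) (A B : (⊤ : SimpleGraph U).Subgraph),
      IsCritical A k → IsCritical B k → (A ⊔ B).coe.Colorable ((k - 1) ^ 2)) ∧
    (∀ k : ℕ, 4 ≤ k → f k k ≤ (((k - 1) ^ 2 : ℕ) : ℕ∞)) ∧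
    (∀ (U : Type) (A B : (⊤ : SimpleGraph U).Subgraph),
      IsCritical A 4 → IsCritical B 4 → (A ⊔ B).coe.Colorable 9) ∧
    f 4 4 ≤ 9 ∧ f 4 4 ≠ 10 := by
  have h0 : ∀ k : ℕ, 4 ≤ k → f k k ≤ (((k - 1) ^ 2 : ℕ) : ℕ∞) := by
    intro k hk
    refine iSup_le fun n => iSup_le fun A => iSup_le fun B => iSup_le fun hA =>
      iSup_le fun hB => ?_
    exact (union_colorable k hk A B hA hB).chromaticNumber_le
  have h1 : f 4 4 ≤ 9 := by
    have h2 := h0 4 le_rfl
    have h3 : (((4 - 1) ^ 2 : ℕ) : ℕ∞) = 9 := by norm_num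
    rw [h3] at h2
    exact h2
  refine ⟨fun k hk U A B hA hB => union_colorable k hk A B hA hB, h0, ?_, h1, ?_⟩
  · intro U A B hA hB
    exact union_colorable 4 le_rfl A B hA hB
  · intro h
    rw [h] at h1
    have h3 : ((10 : ℕ) : ℕ∞) ≤ ((9 : ℕ) : ℕ∞) := by exact_mod_cast h1
    have h4 : (10 : ℕ) ≤ 9 := by exact_mod_cast h3
    omega

end Pool.Agent.Results.MP_b82347_co.TwoFourCritical
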